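import Pool.Agent.helper37.NA.Spec

/-!
# MP_baa4d7_al, THEOREM NA, row NCD: the defect group of `b(θ)` is `D ⊓ cz D`
-/

set_option autoImplicit false

namespace Pool.Agent.NAB

open Pool.Agent.helper58.DC Pool.Agent.DI Pool.Agent.GR Pool.Agent.OB Pool.Agent.DR Pool.Agent.FI Pool.Agent.FI3 Pool.Agent.FI4 Pool.Agent.FI4I Pool.Agent.LE Pool.Agent.L5

section

variable {G : Type} [Group G]

theorem NCD_conj {D : Subgroup G} {x r : G} (hx : x ∈ cz D) (hr : r ∈ D) :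
    x * r * x⁻¹ = r := by
  rw [← Subgroup.mem_centralizer_iff.1 hx r hr, mul_inv_cancel_right]

theorem NCD_norm (D : Subgroup G) : cz D ≤ nz D := by
  intro x hx
  rw [Subgroup.mem_normalizer_iff]
  intro h
  constructor
  · intro hh
    rw [NCD_conj hx hh]
    exact hh
  · intro hh
    have h1 := NCD_conj ((cz D).inv_mem hx) hh
    have h2 : x⁻¹ * (x * h * x⁻¹) * x⁻¹⁻¹ = h := by group
    rw [h2] at h1
    rw [h1]
    exact hh

theorem NCD_sup (D D₁ : Subgroup G) : cz (D ⊔ D₁) = cz D ⊓ cz D₁ := by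
  apply le_antisymm
  · exact le_inf (Subgroup.centralizer_le (SetLike.coe_subset_coe.2 le_sup_left))
      (Subgroup.centralizer_le (SetLike.coe_subset_coe.2 le_sup_right))
  · rw [Subgroup.le_centralizer_iff]
    refine sup_le ?_ ?_
    · rw [Subgroup.le_centralizer_iff]
      exact inf_le_left
    · rw [Subgroup.le_centralizer_iff]
      exact inf_le_right

theorem NCD_card [Finite G] (D R : Subgroup G) (l : G) (h : ∀ r ∈ R, l * r * l⁻¹ ∈ D) :
    Nat.card R ≤ Nat.card D := by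
  refine Nat.card_le_card_of_injective (fun r : R => (⟨l * r * l⁻¹, h r r.2⟩ : D)) ?_
  intro a b hab
  have h1 : l * (a : G) * l⁻¹ = l * b * l⁻¹ := congrArg Subtype.val hab
  have h2 : (a : G) = b := by
    have h3 := mul_right_cancel h1
    exact mul_left_cancel h3
  exact Subtype.ext h2

end

theorem NCD (hDEX : DEX_stmt) (hDGL : DGL_stmt) (hCNTL : CNTL_stmt)
    (hTRN : Pool.Agent.FI.TRN_stmt) : NCD_stmt := by
  intro p M hS G _ _ L ψ _ D x hD θ hθ hSB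
  have hDL : D ≤ L := hD.le.trans inf_le_left
  obtain ⟨D₁, w, hD₁, _⟩ := hDEX p M hS G (L ⊓ cz D) θ hθ
  have h1 : D₁ ≤ L ⊓ cz D := hD₁.le.trans inf_le_left
  have hZ1 : D ⊓ cz D ≤ D₁ := by
    have hle : L ⊓ cz D ≤ cz (D ⊓ cz D) :=
      inf_le_right.trans (Subgroup.centralizer_le (SetLike.coe_subset_coe.2 inf_le_left))
    have he : (L ⊓ cz D) ⊓ cz (D ⊓ cz D) = L ⊓ cz D := inf_eq_left.2 hle
    obtain ⟨l, hl, hl'⟩ := hCNTL p M hS G (L ⊓ cz D) (D ⊓ cz D) (hD.pg.to_le inf_le_left)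
      (inf_le_inf hDL le_rfl) θ (by rw [he]; exact hθ) θ (SB.refl _ _) D₁ w hD₁
    intro r hr
    have h2 := hl' r hr
    rwa [NCD_conj (hle hl) hr] at h2
  have h1Z : D₁ ≤ D ⊓ cz D := by
    refine le_inf ?_ (h1.trans inf_le_right)
    have hR : IsPGroup p (D ⊔ D₁ : Subgroup G) :=
      hD.pg.to_sup_of_normal_left' hD₁.pg ((h1.trans inf_le_right).trans (NCD_norm D))
    have hRL : D ⊔ D₁ ≤ L := sup_le hDL (h1.trans inf_le_left)
    obtain ⟨θ₁, hθ₁, hS₁⟩ := hDGL p M hS G (L ⊓ cz D) θ hθ D₁ w hD₁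
    have he : L ⊓ cz (D ⊔ D₁) = (L ⊓ cz D) ⊓ cz D₁ := by
      rw [NCD_sup, inf_assoc]
    have h3 : SB M L θ₁ θ := (hTRN G M (L ⊓ cz D) L inf_le_left θ₁ θ θ
      (fun y hy => hθ₁.1 y fun h => hy h.1) (fun y hy => hθ.1 y hy) hS₁).1
    obtain ⟨l, hl, hl'⟩ := hCNTL p M hS G L (D ⊔ D₁) hR hRL θ₁ (by rw [he]; exact hθ₁) ψ
      (h3.trans hSB) D x hD
    have h4 : D = D ⊔ D₁ := Subgroup.eq_of_le_of_card_ge le_sup_left (NCD_card D (D ⊔ D₁) l hl')
    rw [h4]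
    exact le_sup_right
  have h5 : D₁ = D ⊓ cz D := le_antisymm h1Z hZ1
  rw [h5] at hD₁
  exact ⟨w, hD₁⟩

end Pool.Agent.NAB
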